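import Pool.Agent.H61.KU.TC

/-!
# Kuiper board: adjacency is inherited by the facets of a face
-/

set_option autoImplicit false

namespace Pool.Agent.H3.KU

open Pool.Agent.H61.KU

theorem pf_ain (hF : T_FAC) (hR : T_ROT) : T_AIN := by
  intro ι W _ _ _ _ _ v hW hv F G x y hFf hGf hGF hrk hx hy hadj
  obtain ⟨h1, h2, -, -, h5, -, -⟩ := hF ι W v
  by_contra hcon
  push Not at hcon
  obtain ⟨hxG, hyG⟩ := hcon
  obtain ⟨R, hRf, hGR, -, hRx, hsp⟩ := hR ι W v Finset.univ {x} G h1 (hv.single x) hGf
    (Finset.subset_univ _) (Finset.subset_univ _)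
  have hxR : x ∉ R := by
    intro h
    have h' : x ∈ R ∩ {x} := Finset.mem_inter.2 ⟨h, Finset.mem_singleton_self x⟩
    rw [hRx] at h'
    exact hxG (Finset.mem_inter.1 h').1
  have hlow : 8 ≤ rk v R := by
    have h6 : Module.finrank ℝ (↥(sp v R ⊔ sp v {x})) = 9 := by
      rw [hsp, hv.span, finrank_top, hW]
    have h7 := Submodule.finrank_add_le_finrank_add_finrank (sp v R) (sp v {x})
    have h8 : Module.finrank ℝ (sp v {x}) ≤ 1 := by
      have h9 := finrank_span_le_card (R := ℝ) ({v x} : Set W)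
      unfold sp
      rw [Finset.coe_singleton, Set.image_singleton]
      simpa using h9
    unfold rk
    omega
  have hup : rk v R < 9 := by
    have h6 : R ⊂ Finset.univ := by
      rw [Finset.ssubset_univ_iff]
      intro h
      exact hxR (h ▸ Finset.mem_univ x)
    have h7 := h5 R Finset.univ hRf h6
    have h8 : rk v Finset.univ = 9 := by
      unfold rk
      rw [hv.span, finrank_top, hW]
    omega
  have hyR : y ∈ R := by
    rcases hadj R hRf (by omega) with h | h
    · exact absurd h hxR
    · exact h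
  have hA := h2 R F hRf hFf
  have h9 : G ⊂ R ∩ F := by
    refine (Finset.ssubset_iff_of_subset (Finset.subset_inter hGR hGF)).2 ⟨y, ?_, hyG⟩
    exact Finset.mem_inter.2 ⟨hyR, hy⟩
  have h10 : R ∩ F ⊂ F := by
    refine (Finset.ssubset_iff_of_subset Finset.inter_subset_right).2 ⟨x, hx, ?_⟩
    intro h
    exact hxR (Finset.mem_inter.1 h).1
  have h11 := h5 G (R ∩ F) hGf h9
  have h12 := h5 (R ∩ F) F hA h10
  omega

end Pool.Agent.H3.KU
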