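import Pool.Agent.H61.KU.TA

/-!
# Kuiper board: homology of the spheres
-/

set_option autoImplicit false

open Topology Set
open Pool.Agent.H59 Pool.Agent.H64.LB Pool.Agent.H61.KU

namespace Pool.Agent.H3.KU

theorem homeo_bij (q : ℕ) {X Y : Type} [TopologicalSpace X] [TopologicalSpace Y] (e : X ≃ₜ Y) :
    Function.Bijective (HH.map (ZMod 2) q (e : C(X, Y))) := by
  have h1 : ∀ z, HH.map (ZMod 2) q (e.symm : C(Y, X)) (HH.map (ZMod 2) q (e : C(X, Y)) z) = z := by
    intro z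
    rw [← HH.map_comp]
    have : (e.symm : C(Y, X)).comp (e : C(X, Y)) = ContinuousMap.id X := by
      ext x
      simp
    rw [this, HH.map_id]
  have h2 : ∀ z, HH.map (ZMod 2) q (e : C(X, Y)) (HH.map (ZMod 2) q (e.symm : C(Y, X)) z) = z := by
    intro z
    rw [← HH.map_comp]
    have : (e : C(X, Y)).comp (e.symm : C(Y, X)) = ContinuousMap.id Y := by
      ext x
      simp
    rw [this, HH.map_id]
  exact ⟨Function.LeftInverse.injective h1, Function.RightInverse.surjective h2⟩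

/-- every class of positive degree of the sphere comes from the kernel -/
theorem mem_KK (hO : T_CON) (k q : ℕ) (z : HH (ZMod 2) (q + 1) (Sph k × Unit)) :
    z ∈ KK (ZMod 2) k (q + 1) Unit := by
  have := hO (ZMod 2) Unit q
  exact LinearMap.mem_ker.2 (Subsingleton.elim _ _)

theorem pathConn (k : ℕ) (hk : 1 ≤ k) : PathConnectedSpace (Sph k) := by
  have h1 : IsPathConnected (({0} : Set (Fin (k + 1) → ℝ))ᶜ) := by
    apply isPathConnected_compl_singleton_of_one_lt_rank
    rw [rank_fun']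
    simp only [Fintype.card_fin]
    exact_mod_cast (by omega : 1 < k + 1)
  exact isPathConnected_iff_pathConnectedSpace.1 h1

theorem pf_sph (hS : T_SUSP) (hH : T_H0) (hO : T_CON) : T_SPH := by
  obtain ⟨S⟩ := hS (ZMod 2)
  obtain ⟨ε, hε1, hε2, hε3⟩ := hH (ZMod 2)
  have hnt : Nontrivial (HH (ZMod 2) 0 Unit) := by
    have := (hε3 Unit).2
    exact this.nontrivial
  have hKn : ∀ k, Nontrivial (KK (ZMod 2) k (0 + k) Unit) := fun k =>
    (S.κ k 0 Unit).toEquiv.nontrivial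
  refine ⟨?_, ?_, pathConn, ?_⟩
  · intro k
    have h1 : Nontrivial (KK (ZMod 2) k k Unit) := by
      have := hKn k
      rwa [Nat.zero_add] at this
    obtain ⟨a, b, hab⟩ := h1
    refine ⟨⟨HH.map (ZMod 2) k (Homeomorph.prodPUnit (Sph k) : C(Sph k × Unit, Sph k)) a.1,
      HH.map (ZMod 2) k (Homeomorph.prodPUnit (Sph k) : C(Sph k × Unit, Sph k)) b.1, ?_⟩⟩
    intro h
    exact hab (Subtype.ext ((homeo_bij k (Homeomorph.prodPUnit (Sph k))).1 h))
  · intro k q hq hqk
    obtain ⟨r, rfl⟩ : ∃ r, q = r + 1 := ⟨q - 1, by omega⟩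
    have hsub : Subsingleton (KK (ZMod 2) k (r + 1) Unit) := by
      rcases lt_or_gt_of_ne hqk with h | h
      · rw [S.low k (r + 1) Unit h]
        infer_instance
      · obtain ⟨m, hm⟩ : ∃ m, r + 1 = (m + 1) + k := ⟨r - k, by omega⟩
        rw [hm]
        have := hO (ZMod 2) Unit m
        exact (S.κ k (m + 1) Unit).toEquiv.subsingleton
    refine ⟨fun a b => ?_⟩
    have hb := homeo_bij (r + 1) (Homeomorph.prodPUnit (Sph k))
    obtain ⟨a', rfl⟩ := hb.2 a
    obtain ⟨b', rfl⟩ := hb.2 b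
    have := hsub.elim ⟨a', mem_KK hO k r a'⟩ ⟨b', mem_KK hO k r b'⟩
    rw [Subtype.mk.inj this]
  · obtain ⟨a, ha⟩ := exists_ne (0 : KK (ZMod 2) 0 (0 + 0) Unit)
    have hb := homeo_bij 0 (Homeomorph.prodPUnit (Sph 0))
    refine ⟨HH.map (ZMod 2) 0 (Homeomorph.prodPUnit (Sph 0) : C(Sph 0 × Unit, Sph 0)) a.1, ?_, ?_⟩
    · intro h
      rw [← map_zero (HH.map (ZMod 2) 0 (Homeomorph.prodPUnit (Sph 0) : C(Sph 0 × Unit, Sph 0)))]
        at h
      exact ha (Subtype.ext (hb.1 h))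
    · intro Y _ _ f
      apply (hε3 Y).1
      rw [hε2, hε2, map_zero]
      have h1 : HH.map (ZMod 2) 0 (ContinuousMap.snd : C(Sph 0 × Unit, Unit)) a.1 = 0 := a.2
      rw [← hε2 _ _ (ContinuousMap.snd : C(Sph 0 × Unit, Unit)), h1, map_zero]

end Pool.Agent.H3.KU
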